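import Pool.Agent.H83.VU.Targets

/-! Linnik's lemma. -/

set_option autoImplicit false

open Finset Pool.Agent.H83.VU

namespace Pool.Agent.H59.VU

theorem card_class (p k j : ℕ) (hp : 1 ≤ p) (hj : j < k) (c : ℤ) :
    ((Ico (0 : ℤ) ((p : ℤ) ^ k)).filter fun r => (p : ℤ) ^ (j + 1) ∣ r - c).card ≤
      p ^ (k - 1 - j) := by
  have hp0 : (0 : ℤ) < (p : ℤ) ^ (j + 1) := by positivity
  have hsplit : (p : ℤ) ^ k = (p : ℤ) ^ (k - 1 - j) * (p : ℤ) ^ (j + 1) := by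
    rw [← pow_add]
    congr 1
    omega
  have h1 : ((Ico (0 : ℤ) ((p : ℤ) ^ k)).filter fun r => (p : ℤ) ^ (j + 1) ∣ r - c).card ≤
      (Ico (0 : ℤ) ((p : ℤ) ^ (k - 1 - j))).card := by
    apply Finset.card_le_card_of_injOn (fun r => r / (p : ℤ) ^ (j + 1))
    · intro r hr
      have hr' := Finset.mem_coe.1 hr
      rw [mem_filter, mem_Ico] at hr'
      obtain ⟨⟨h0, h2⟩, -⟩ := hr'
      rw [Finset.mem_coe, mem_Ico]
      refine ⟨Int.ediv_nonneg h0 hp0.le, ?_⟩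
      apply Int.ediv_lt_of_lt_mul hp0
      rw [← hsplit]
      exact h2
    · intro r hr r' hr' h
      have e1 := (mem_filter.1 (Finset.mem_coe.1 hr)).2
      have e2 := (mem_filter.1 (Finset.mem_coe.1 hr')).2
      have h3 : (p : ℤ) ^ (j + 1) ∣ r - r' := by
        have := dvd_sub e1 e2
        rwa [sub_sub_sub_cancel_right] at this
      have h4 : r % (p : ℤ) ^ (j + 1) = r' % (p : ℤ) ^ (j + 1) :=
        Int.ModEq.symm ((Int.modEq_iff_dvd).2 h3)
      have h5 := Int.mul_ediv_add_emod r ((p : ℤ) ^ (j + 1))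
      have h6 := Int.mul_ediv_add_emod r' ((p : ℤ) ^ (j + 1))
      have h7 : r / (p : ℤ) ^ (j + 1) = r' / (p : ℤ) ^ (j + 1) := h
      rw [← h5, ← h6, h7, h4]
  refine h1.trans ?_
  rw [Int.card_Ico, sub_zero]
  have : ((p : ℤ) ^ (k - 1 - j)).toNat = p ^ (k - 1 - j) := by
    rw [← Nat.cast_pow, Int.toNat_natCast]
  rw [this]

/-- the fibres -/
theorem fibre (hPRM : T_PRM) (k p N : ℕ) (a : ℤ) (hp : p.Prime) (hkp : k < p) (hN : N ≤ p ^ k)
    (hk : 1 ≤ k) (F : Finset (Fin k → ℤ)) (hF : F ⊆ XX k N p)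
    (h : ∀ x ∈ F, ∀ y ∈ F, ∀ j ∈ Icc 1 k, (p : ℤ) ^ k ∣ ∑ i, (x i - a) ^ j - ∑ i, (y i - a) ^ j) :
    F.card ≤ k.factorial := by
  rcases F.eq_empty_or_nonempty with rfl | ⟨x0, hx0⟩
  · simp
  · have hsub : F ⊆ Finset.image (fun σ : Equiv.Perm (Fin k) => fun i => x0 (σ i))
        (Finset.univ : Finset (Equiv.Perm (Fin k))) := by
      intro x hx
      obtain ⟨hxB, hxI⟩ := mem_filter.1 (hF hx)
      obtain ⟨hx0B, hx0I⟩ := mem_filter.1 (hF hx0)
      obtain ⟨σ, hσ⟩ := hPRM k p k (fun i => x0 i - a) (fun i => x i - a) hp hkp hk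
        (fun i j h => hx0I i j (by rwa [sub_sub_sub_cancel_right] at h))
        (fun i j h => hxI i j (by rwa [sub_sub_sub_cancel_right] at h)) (h x0 hx0 x hx)
      rw [Finset.mem_image]
      refine ⟨σ, Finset.mem_univ σ, ?_⟩
      funext i
      have h2 := hσ i
      rw [sub_sub_sub_cancel_right] at h2
      have h3 := mem_Icc.1 (mem_vec.1 hxB i)
      have h4 := mem_Icc.1 (mem_vec.1 hx0B (σ i))
      have hN' : (N : ℤ) ≤ (p : ℤ) ^ k := by exact_mod_cast hN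
      have h5 : |x i - x0 (σ i)| < (p : ℤ) ^ k := by
        rw [abs_lt]
        constructor <;> linarith [h3.1, h3.2, h4.1, h4.2]
      have h6 := Int.eq_zero_of_abs_lt_dvd h2 h5
      linarith
    refine (Finset.card_le_card hsub).trans (Finset.card_image_le.trans ?_)
    rw [Finset.card_univ, Fintype.card_perm, Fintype.card_fin]

/-- the residues of the power sums -/
def fm (k p : ℕ) (a : ℤ) (x : Fin k → ℤ) (j : Fin k) : ℤ :=
  (∑ i, (x i - a) ^ ((j : ℕ) + 1)) % (p : ℤ) ^ k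

theorem card_T (k p : ℕ) (hp1 : 1 ≤ p) (c : ℕ → ℤ) :
    (Fintype.piFinset fun j : Fin k => (Ico (0 : ℤ) ((p : ℤ) ^ k)).filter fun r =>
      (p : ℤ) ^ ((j : ℕ) + 1) ∣ r - c ((j : ℕ) + 1)).card ≤ p ^ (k * (k - 1) / 2) := by
  rw [Fintype.card_piFinset]
  refine (Finset.prod_le_prod' (g := fun j : Fin k => p ^ (k - 1 - (j : ℕ)))
    fun (j : Fin k) _ => card_class p k j hp1 j.2 (c ((j : ℕ) + 1))).trans ?_
  rw [Finset.prod_pow_eq_pow_sum]
  apply Nat.pow_le_pow_right hp1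
  rw [Fin.sum_univ_eq_sum_range (fun j => k - 1 - j) k, Finset.sum_range_reflect (fun j => j) k,
    Finset.sum_range_id]

theorem pf_LIN (hPRM : T_PRM) : T_LIN := by
  intro k p N a c hp hkp hN hk
  have hp1 : 1 ≤ p := hp.one_lt.le
  have hpk : (0 : ℤ) < (p : ℤ) ^ k := by positivity
  refine (Finset.card_le_mul_card_image_of_maps_to (f := fm k p a) ?_ k.factorial ?_).trans
    (Nat.mul_le_mul_left _ (card_T k p hp1 c))
  · intro x hx
    rw [mem_filter] at hx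
    rw [Fintype.mem_piFinset]
    intro j
    rw [mem_filter, mem_Ico]
    refine ⟨⟨Int.emod_nonneg _ hpk.ne', Int.emod_lt_of_pos _ hpk⟩, ?_⟩
    have h1 := hx.2 ((j : ℕ) + 1) (mem_Icc.2 ⟨by omega, j.2⟩)
    have h2 : (p : ℤ) ^ k ∣ fm k p a x j - ∑ i, (x i - a) ^ ((j : ℕ) + 1) := by
      rw [← dvd_neg, neg_sub]
      exact Int.dvd_self_sub_emod
    have h3 : (p : ℤ) ^ ((j : ℕ) + 1) ∣ (p : ℤ) ^ k := pow_dvd_pow _ j.2
    have h4 := dvd_add (h3.trans h2) h1
    rw [sub_add_sub_cancel] at h4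
    exact h4
  · intro b _
    apply fibre hPRM k p N a hp hkp hN hk _
    · intro x hx
      exact (mem_filter.1 (mem_filter.1 hx).1).1
    · intro x hx y hy j hj
      have hxb := (mem_filter.1 hx).2
      have hyb := (mem_filter.1 hy).2
      rw [mem_Icc] at hj
      have h1 : fm k p a x ⟨j - 1, by omega⟩ = fm k p a y ⟨j - 1, by omega⟩ := by rw [hxb, hyb]
      have hj1 : j - 1 + 1 = j := by omega
      simp only [fm, hj1] at h1
      exact Int.ModEq.dvd (Int.ModEq.symm h1)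

end Pool.Agent.H59.VU
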