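import Pool.Agent.H83.VU.Targets

/-! Newton's identities modulo `p ^ m`. -/

set_option autoImplicit false

open Polynomial Pool.Agent.H83.VU

namespace Pool.Agent.H59.VU

variable {A : Type} [CommRing A]

theorem esymm_congr {s : ℕ} (k : ℕ) (x y : Fin s → A) (hu : ∀ j : ℕ, 1 ≤ j → j ≤ k → IsUnit (j : A))
    (h : ∀ j : ℕ, 1 ≤ j → j ≤ k → ∑ i, x i ^ j = ∑ i, y i ^ j) :
    ∀ j : ℕ, j ≤ k → MvPolynomial.aeval x (MvPolynomial.esymm (Fin s) A j) =
      MvPolynomial.aeval y (MvPolynomial.esymm (Fin s) A j) := by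
  intro j
  induction j using Nat.strong_induction_on with
  | _ j ih =>
    intro hj
    rcases Nat.eq_zero_or_pos j with rfl | hpos
    · simp [MvPolynomial.esymm_zero]
    have key : ∀ z : Fin s → A, (j : A) *
        MvPolynomial.aeval z (MvPolynomial.esymm (Fin s) A j) =
        (-1) ^ (j + 1) * ∑ a ∈ Finset.HasAntidiagonal.antidiagonal j with a.1 < j, (-1) ^ a.1 *
          MvPolynomial.aeval z (MvPolynomial.esymm (Fin s) A a.1) *
          ∑ i, z i ^ a.2 := by
      intro z
      have := congrArg (MvPolynomial.aeval z) (MvPolynomial.mul_esymm_eq_sum (Fin s) A j)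
      simpa [MvPolynomial.psum, map_mul, map_sum, map_pow] using this
    apply (hu j hpos hj).mul_left_cancel
    rw [key x, key y]
    congr 1
    apply Finset.sum_congr rfl
    intro a ha
    rw [Finset.mem_filter, Finset.HasAntidiagonal.mem_antidiagonal] at ha
    obtain ⟨ha1, ha2⟩ := ha
    rw [ih a.1 ha2 (by omega)]
    congr 1
    exact h a.2 (by omega) (by omega)

theorem prod_congr' {k : ℕ} (x y : Fin k → A) (hu : ∀ j : ℕ, 1 ≤ j → j ≤ k → IsUnit (j : A))
    (h : ∀ j : ℕ, 1 ≤ j → j ≤ k → ∑ i, x i ^ j = ∑ i, y i ^ j) (z : A) :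
    ∏ i, (z - x i) = ∏ i, (z - y i) := by
  have key : ∀ w : Fin k → A, ∏ i, (z - w i) = ∑ j ∈ Finset.range (k + 1),
      (-1) ^ j * MvPolynomial.aeval w (MvPolynomial.esymm (Fin k) A j) * z ^ (k - j) := by
    intro w
    have h1 := Multiset.prod_X_sub_X_eq_sum_esymm (Finset.univ.val.map w)
    have h2 := congrArg (Polynomial.eval z) h1
    rw [Multiset.map_map, Polynomial.eval_multiset_prod, Multiset.map_map] at h2
    have h3 : (Multiset.map ((Polynomial.eval z) ∘ ((fun t => X - C t) ∘ w)) Finset.univ.val).prod =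
        ∏ i, (z - w i) := by
      show _ = (Multiset.map (fun i => z - w i) Finset.univ.val).prod
      congr 1
      refine Multiset.map_congr rfl fun i _ => ?_
      simp
    rw [h3] at h2
    rw [h2, Polynomial.eval_finsetSum]
    simp only [Multiset.card_map, Finset.card_val, Finset.card_univ, Fintype.card_fin]
    refine Finset.sum_congr rfl fun j _ => ?_
    rw [MvPolynomial.aeval_esymm_eq_multiset_esymm]
    simp
    try ring
  rw [key x, key y]
  refine Finset.sum_congr rfl fun j hj => ?_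
  rw [esymm_congr k x y hu h j (by have := Finset.mem_range.1 hj; omega)]

theorem pf_NEW : T_NEW := by
  intro k p m x y hp hk h z
  have hu : ∀ j : ℕ, 1 ≤ j → j ≤ k → IsUnit (j : ZMod (p ^ m)) := by
    intro j hj1 hjk
    rw [ZMod.isUnit_iff_coprime]
    apply Nat.Coprime.pow_right
    exact ((Nat.Prime.coprime_iff_not_dvd hp).2 (Nat.not_dvd_of_pos_of_lt hj1
      (lt_of_le_of_lt hjk hk))).symm
  have h2 := prod_congr' (A := ZMod (p ^ m)) (fun i => (x i : ZMod (p ^ m)))
    (fun i => (y i : ZMod (p ^ m))) hu (by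
      intro j hj1 hjk
      have h3 := h j (Finset.mem_Icc.2 ⟨hj1, hjk⟩)
      have h4 : ((p ^ m : ℕ) : ℤ) ∣ ∑ i, x i ^ j - ∑ i, y i ^ j := by
        push_cast
        exact h3
      rw [← ZMod.intCast_zmod_eq_zero_iff_dvd] at h4
      push_cast at h4
      exact sub_eq_zero.1 h4) (z : ZMod (p ^ m))
  have h5 : ((p ^ m : ℕ) : ℤ) ∣ ∏ i, (z - x i) - ∏ i, (z - y i) := by
    rw [← ZMod.intCast_zmod_eq_zero_iff_dvd]
    push_cast
    exact sub_eq_zero.2 h2
  push_cast at h5
  exact h5

end Pool.Agent.H59.VU
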