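import Pool.Agent.H83.VU.Targets

/-! Comparison with the integral. -/

set_option autoImplicit false

open Finset Pool.Agent.H83.VU

namespace Pool.Agent.H59.VU

/-- `t ^ (i u)` -/
noncomputable def ff (u t : ℝ) : ℂ := Complex.exp ((u * Real.log t : ℝ) * Complex.I)

/-- its primitive -/
noncomputable def GG (u t : ℝ) : ℂ := (t : ℂ) * ff u t / (1 + (u : ℂ) * Complex.I)

theorem norm_exp_sub (a b : ℝ) :
    ‖Complex.exp ((a : ℂ) * Complex.I) - Complex.exp ((b : ℂ) * Complex.I)‖ ≤ |a - b| := by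
  have e : Complex.exp ((a : ℂ) * Complex.I) - Complex.exp ((b : ℂ) * Complex.I) =
      Complex.exp ((b : ℂ) * Complex.I) * (Complex.exp (Complex.I * ((a - b : ℝ) : ℂ)) - 1) := by
    rw [mul_sub, mul_one, ← Complex.exp_add]
    congr 2
    push_cast
    ring
  rw [e, norm_mul, Complex.norm_exp_ofReal_mul_I, one_mul]
  exact Real.norm_exp_I_mul_ofReal_sub_one_le

theorem one_add_ne (u : ℝ) : (1 + (u : ℂ) * Complex.I) ≠ 0 := by
  intro h
  have := congrArg Complex.re h
  simp at this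

theorem hasDeriv (u : ℝ) {t : ℝ} (ht : 0 < t) : HasDerivAt (GG u) (ff u t) t := by
  have h1 : HasDerivAt (fun t : ℝ => (u * Real.log t : ℝ)) (u * t⁻¹) t :=
    (Real.hasDerivAt_log ht.ne').const_mul u
  have h2 : HasDerivAt (fun t : ℝ => ((u * Real.log t : ℝ) : ℂ) * Complex.I)
      (((u * t⁻¹ : ℝ) : ℂ) * Complex.I) t := (h1.ofReal_comp).mul_const Complex.I
  have h3 : HasDerivAt (ff u) (ff u t * (((u * t⁻¹ : ℝ) : ℂ) * Complex.I)) t := h2.cexp
  have h4 : HasDerivAt (fun t : ℝ => (t : ℂ)) 1 t := (hasDerivAt_id t).ofReal_comp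
  have h5 := (h4.mul h3).div_const (1 + (u : ℂ) * Complex.I)
  have e : (1 * ff u t + (t : ℂ) * (ff u t * (((u * t⁻¹ : ℝ) : ℂ) * Complex.I))) /
      (1 + (u : ℂ) * Complex.I) = ff u t := by
    have ht' : (t : ℂ) ≠ 0 := by exact_mod_cast ht.ne'
    rw [div_eq_iff (one_add_ne u)]
    push_cast
    field_simp
  rw [e] at h5
  exact h5

theorem step (u : ℝ) (n : ℕ) (hn : 1 ≤ n) :
    ‖ni u (n + 1) - (GG u ((n + 1 : ℕ) : ℝ) - GG u (n : ℝ))‖ ≤
      |u| * (Real.log ((n + 1 : ℕ) : ℝ) - Real.log n) := by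
  have hn0 : (0 : ℝ) < n := by exact_mod_cast hn
  have e1 : ni u (n + 1) = ff u ((n + 1 : ℕ) : ℝ) := rfl
  have key := Convex.norm_image_sub_le_of_norm_hasDerivWithin_le
    (f := fun t : ℝ => GG u t - (t : ℂ) * ni u (n + 1)) (f' := fun t => ff u t - ni u (n + 1))
    (C := |u| * (Real.log ((n + 1 : ℕ) : ℝ) - Real.log n)) (s := Set.Icc (n : ℝ) ((n + 1 : ℕ) : ℝ))
    (x := (n : ℝ)) (y := ((n + 1 : ℕ) : ℝ))
    (fun t ht => by
      have ht0 : 0 < t := hn0.trans_le ht.1
      have h4 : HasDerivAt (fun t : ℝ => (t : ℂ)) 1 t := (hasDerivAt_id t).ofReal_comp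
      have h6 := (hasDeriv u ht0).sub (h4.mul_const (ni u (n + 1)))
      rw [one_mul] at h6
      exact h6.hasDerivWithinAt)
    (fun t ht => by
      have ht0 : 0 < t := hn0.trans_le ht.1
      show ‖ff u t - ni u (n + 1)‖ ≤ _
      rw [e1]
      unfold ff
      refine (norm_exp_sub _ _).trans ?_
      rw [← mul_sub, abs_mul]
      apply mul_le_mul_of_nonneg_left _ (abs_nonneg _)
      have h7 : Real.log n ≤ Real.log t := Real.log_le_log hn0 ht.1
      have h8 : Real.log t ≤ Real.log ((n + 1 : ℕ) : ℝ) := Real.log_le_log ht0 ht.2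
      rw [abs_sub_comm, abs_of_nonneg (by linarith)]
      linarith)
    (convex_Icc _ _) (Set.left_mem_Icc.2 (by push_cast; linarith))
    (Set.right_mem_Icc.2 (by push_cast; linarith))
  have e2 : ‖((n + 1 : ℕ) : ℝ) - (n : ℝ)‖ = 1 := by
    push_cast
    simp
  rw [e2, mul_one] at key
  refine le_trans (le_of_eq ?_) key
  rw [← norm_neg]
  congr 1
  push_cast
  ring

theorem pf_SML : T_SML := by
  intro N N' u hN hNN
  have hN0 : (0 : ℝ) < N := by exact_mod_cast hN
  have key : ‖∑ n ∈ Ioc N N', ni u n - (GG u (N' : ℝ) - GG u (N : ℝ))‖ ≤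
      |u| * (Real.log N' - Real.log N) := by
    induction N', hNN using Nat.le_induction with
    | base => simp
    | succ n hn ih =>
      have h1 := step u n (hN.trans hn)
      rw [← Finset.insert_Ioc_right_eq_Ioc_add_one hn, Finset.sum_insert (by simp)]
      have e : ni u (n + 1) + ∑ m ∈ Ioc N n, ni u m - (GG u ((n + 1 : ℕ) : ℝ) - GG u (N : ℝ)) =
          (ni u (n + 1) - (GG u ((n + 1 : ℕ) : ℝ) - GG u (n : ℝ))) +
            (∑ m ∈ Ioc N n, ni u m - (GG u (n : ℝ) - GG u (N : ℝ))) := by ring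
      rw [e]
      refine (norm_add_le _ _).trans ?_
      linarith
  have hN'0 : (0 : ℝ) < N' := by exact_mod_cast hN.trans hNN
  rw [Real.log_div hN'0.ne' hN0.ne']
  refine le_trans (le_of_eq ?_) key
  congr 2
  unfold GG
  rw [← sub_div]
  rfl

end Pool.Agent.H59.VU
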